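import Pool.Agent.HF.Stmts

/-!
ORD: a semiring of complexities. Finite sums of monomials with exponents which are finite sums of
elements of the first uncountable ordinal, ordered by the largest difference: this is a set of
ordinals with the natural sum and product. All initial segments are countable, so the semiring is
embedded in the first uncountable ordinal, and `Om c` is the monomial with exponent `c`.
-/

namespace Pool.Agent.HF.H94

open Cardinal Ordinal

/-! ### well-orders with countable initial segments -/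

/-- all initial segments are countable -/
def IC (A : Type*) [Preorder A] : Prop := ∀ a : A, (Set.Iic a).Countable

theorem colex_supp {A : Type*} [LinearOrder A] {x y : Colex (A →₀ ℕ)} (h : x ≤ y) {a : A}
    (ha : (ofColex x) a ≠ 0) : ∃ b, (ofColex y) b ≠ 0 ∧ a ≤ b := by
  rcases h.lt_or_eq with h | h
  · obtain ⟨i, hi1, hi2⟩ := Finsupp.Colex.lt_iff.1 h
    have hi3 : (ofColex y) i ≠ 0 := by
      have : (ofColex x) i < (ofColex y) i := hi2
      omega
    rcases le_or_gt a i with h1 | h1
    · exact ⟨i, hi3, h1⟩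
    · have h2 : (ofColex x) a = (ofColex y) a := hi1 a h1
      exact ⟨a, by rw [← h2]; exact ha, le_rfl⟩
  · subst h
    exact ⟨a, ha, le_rfl⟩

theorem ic_colex {A : Type*} [LinearOrder A] (h : IC A) : IC (Colex (A →₀ ℕ)) := by
  classical
  intro y
  set S : Set A := ⋃ a ∈ (ofColex y).support, Set.Iic a with hS
  have hSc : S.Countable :=
    Set.Countable.biUnion (Finset.countable_toSet (ofColex y).support) (fun a _ => h a)
  have : Countable S := hSc.to_subtype
  have hc : (Set.range (fun f : S →₀ ℕ =>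
      toColex (f.embDomain (Function.Embedding.subtype (· ∈ S))))).Countable :=
    Set.countable_range _
  refine hc.mono ?_
  intro x hx
  have hx2 : ∀ a, (ofColex x) a ≠ 0 → a ∈ S := by
    intro a ha
    obtain ⟨b, hb, hab⟩ := colex_supp hx ha
    rw [hS]
    simp only [Set.mem_iUnion]
    exact ⟨b, Finsupp.mem_support_iff.2 hb, hab⟩
  refine ⟨(ofColex x).comapDomain Subtype.val Subtype.val_injective.injOn, ?_⟩
  apply ofColex.injective
  change Finsupp.embDomain (Function.Embedding.subtype (· ∈ S))
    ((ofColex x).comapDomain Subtype.val Subtype.val_injective.injOn) = ofColex x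
  ext a
  by_cases ha : a ∈ S
  · have : a = (Function.Embedding.subtype (· ∈ S)) ⟨a, ha⟩ := rfl
    rw [this, Finsupp.embDomain_apply_self, Finsupp.comapDomain_apply]
    rfl
  · rw [Finsupp.embDomain_notin_range]
    · by_contra h0
      exact ha (hx2 a (Ne.symm h0))
    · rintro ⟨b, rfl⟩
      exact ha b.2

/-- the first uncountable ordinal, as a type -/
abbrev W1 : Type 1 := (ℵ₁ : Cardinal.{1}).ord.ToType

theorem ic_W1 : IC W1 := by
  intro a
  have h1 : #(Set.Iio a) < ℵ₁ := mk_Iio_toType_ord_lt a
  have h2 : (Set.Iio a).Countable :=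
    Cardinal.le_aleph0_iff_set_countable.1 (Cardinal.lt_aleph_one_iff.1 h1)
  have h3 : Set.Iic a = insert a (Set.Iio a) := by
    ext x
    simp [le_iff_eq_or_lt]
  rw [h3]
  exact h2.insert a

theorem exists_emb {T : Type 1} [LinearOrder T] [WellFoundedLT T] (h : IC T) :
    ∃ φ : T → W1, StrictMono φ := by
  have key : ∀ a : T, typein (α := T) (· < ·) a < (ℵ₁ : Cardinal.{1}).ord := by
    intro a
    rw [Cardinal.lt_ord]
    have h1 : #{y : T // y < a} = (typein (α := T) (· < ·) a).card :=
      Ordinal.card_typein (r := ((· < ·) : T → T → Prop)) a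
    rw [← h1]
    have h2 : (Set.Iio a).Countable := (h a).mono fun x hx => le_of_lt hx
    exact Cardinal.lt_aleph_one_iff.2 (Cardinal.le_aleph0_iff_set_countable.2 h2)
  refine ⟨fun a => Ordinal.ToType.mk ⟨typein (α := T) (· < ·) a, key a⟩, ?_⟩
  intro a b hab
  refine (Ordinal.ToType.mk (o := (ℵ₁ : Cardinal.{1}).ord)).strictMono ?_
  exact (typein_lt_typein (α := T) (· < ·)).2 hab

/-! ### the semiring -/

section semi

variable {A : Type*} [LinearOrder A]

theorem lt_single_iff (x : Colex (A →₀ ℕ)) (a : A) :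
    x < toColex (Finsupp.single a 1) ↔ ∀ b, (ofColex x) b ≠ 0 → b < a := by
  classical
  rw [Finsupp.Colex.lt_iff]
  constructor
  · rintro ⟨i, h1, h2⟩ b hb
    have h2' : (ofColex x) i < (Finsupp.single a 1 : A →₀ ℕ) i := h2
    have hia : i = a := by
      by_contra h
      rw [Finsupp.single_eq_of_ne h] at h2'
      omega
    subst hia
    by_contra h
    rcases (not_lt.1 h).lt_or_eq with h3 | h3
    · have h4 : (ofColex x) b = (Finsupp.single i 1 : A →₀ ℕ) b := h1 b h3
      rw [Finsupp.single_eq_of_ne h3.ne'] at h4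
      exact hb h4
    · subst h3
      rw [Finsupp.single_eq_same] at h2'
      omega
  · intro h
    refine ⟨a, fun j hj => ?_, ?_⟩
    · change (ofColex x) j = (Finsupp.single a 1 : A →₀ ℕ) j
      rw [Finsupp.single_eq_of_ne hj.ne']
      by_contra h0
      exact absurd (h j h0) (not_lt.2 hj.le)
    · change (ofColex x) a < (Finsupp.single a 1 : A →₀ ℕ) a
      rw [Finsupp.single_eq_same]
      have : (ofColex x) a = 0 := by
        by_contra h0
        exact lt_irrefl _ (h a h0)
      omega

theorem add_lt_single {x y : Colex (A →₀ ℕ)} {a : A} (hx : x < toColex (Finsupp.single a 1))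
    (hy : y < toColex (Finsupp.single a 1)) : x + y < toColex (Finsupp.single a 1) := by
  rw [lt_single_iff] at *
  intro b hb
  have hb' : (ofColex x) b + (ofColex y) b ≠ 0 := hb
  by_cases h : (ofColex x) b = 0
  · exact hy b (by omega)
  · exact hx b h

end semi

section semiring

variable (Γ : Type 1) [LinearOrder Γ] [AddCommMonoid Γ] [IsOrderedCancelAddMonoid Γ]

/-- the semiring as a set of functions -/
noncomputable def cm (x : AddMonoidAlgebra ℕ Γ) : Colex (Γ →₀ ℕ) := toColex x.coeff

theorem cm_inj : Function.Injective (cm Γ) := fun x y h =>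
  AddMonoidAlgebra.coeff_injective (toColex.injective h)

/-- the order -/
@[reducible]
noncomputable def linT : LinearOrder (AddMonoidAlgebra ℕ Γ) := LinearOrder.lift' (cm Γ) (cm_inj Γ)

/-- the embedding in the series with integral coefficients -/
noncomputable def hs : AddMonoidAlgebra ℕ Γ →ₐ[ℕ] HahnSeries Γᵒᵈ ℤ :=
  AddMonoidAlgebra.lift ℕ (HahnSeries Γᵒᵈ ℤ) Γ
    { toFun := fun g => HahnSeries.single (OrderDual.toDual g.toAdd) (1 : ℤ)
      map_one' := rfl
      map_mul' := fun a b => by
        rw [HahnSeries.single_mul_single, mul_one]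
        rfl }

theorem hs_coeff (x : AddMonoidAlgebra ℕ Γ) (γ : Γ) :
    (hs Γ x).coeff (OrderDual.toDual γ) = (x.coeff γ : ℤ) := by
  classical
  induction x using AddMonoidAlgebra.induction_linear with
  | zero => simp
  | add f g hf hg => rw [map_add, HahnSeries.coeff_add, hf, hg, AddMonoidAlgebra.coeff_add,
      Finsupp.add_apply, Nat.cast_add]
  | single a b =>
    rw [hs, AddMonoidAlgebra.lift_single, AddMonoidAlgebra.coeff_single]
    change (b • HahnSeries.single (OrderDual.toDual a) (1 : ℤ)).coeff (OrderDual.toDual γ) = _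
    rw [HahnSeries.coeff_smul]
    by_cases h : γ = a
    · subst h
      rw [HahnSeries.coeff_single_same, Finsupp.single_eq_same]
      simp
    · rw [HahnSeries.coeff_single_of_ne (fun h1 => h (OrderDual.toDual.injective h1)),
        Finsupp.single_eq_of_ne h]
      simp

theorem hs_lt (x y : AddMonoidAlgebra ℕ Γ) :
    toLex (hs Γ x) < toLex (hs Γ y) ↔ cm Γ x < cm Γ y := by
  rw [HahnSeries.lt_iff, Finsupp.Colex.lt_iff]
  constructor
  · rintro ⟨i, h1, h2⟩
    refine ⟨OrderDual.ofDual i, fun j hj => ?_, ?_⟩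
    · have h3 := h1 (OrderDual.toDual j) hj
      rw [ofLex_toLex, ofLex_toLex, hs_coeff, hs_coeff, Nat.cast_inj] at h3
      exact h3
    · have h3 : (hs Γ x).coeff (OrderDual.toDual (OrderDual.ofDual i)) <
        (hs Γ y).coeff (OrderDual.toDual (OrderDual.ofDual i)) := h2
      rw [hs_coeff, hs_coeff, Nat.cast_lt] at h3
      exact h3
  · rintro ⟨i, h1, h2⟩
    refine ⟨OrderDual.toDual i, fun j hj => ?_, ?_⟩
    · have h3 : x.coeff (OrderDual.ofDual j) = y.coeff (OrderDual.ofDual j) :=
        h1 (OrderDual.ofDual j) hj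
      change (hs Γ x).coeff (OrderDual.toDual (OrderDual.ofDual j)) =
        (hs Γ y).coeff (OrderDual.toDual (OrderDual.ofDual j))
      rw [hs_coeff, hs_coeff, h3]
    · change (hs Γ x).coeff (OrderDual.toDual i) < (hs Γ y).coeff (OrderDual.toDual i)
      rw [hs_coeff, hs_coeff, Nat.cast_lt]
      exact h2

theorem hs_inj : Function.Injective (hs Γ) := by
  intro x y h
  apply AddMonoidAlgebra.coeff_injective
  ext γ
  have h1 := hs_coeff Γ x γ
  rw [h, hs_coeff] at h1
  exact_mod_cast h1.symm

theorem ordT : @IsStrictOrderedRing (AddMonoidAlgebra ℕ Γ) _ (linT Γ).toPartialOrder := by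
  let _ := linT Γ
  have hlt : ∀ {x y : AddMonoidAlgebra ℕ Γ}, toLex (hs Γ x) < toLex (hs Γ y) ↔ x < y := by
    intro x y
    exact hs_lt Γ x y
  have hle : ∀ {x y : AddMonoidAlgebra ℕ Γ}, toLex (hs Γ x) ≤ toLex (hs Γ y) ↔ x ≤ y := by
    intro x y
    rw [← not_lt, hlt, not_lt]
  exact Function.Injective.isStrictOrderedRing (R := Lex (HahnSeries Γᵒᵈ ℤ))
    (fun x => toLex (hs Γ x)) (by rw [map_zero]; rfl) (by rw [map_one]; rfl)
    (fun x y => by rw [map_add]; rfl) (fun x y => by rw [map_mul]; rfl) hle hlt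

end semiring

/-! ### the semiring of complexities -/

/-- the exponents -/
abbrev Gm : Type 1 := Colex (W1 →₀ ℕ)

/-- the complexities -/
abbrev TT : Type 1 := AddMonoidAlgebra ℕ Gm

/-- the exponent of `Om c` -/
noncomputable def ex (δ : W1) : Gm := toColex (Finsupp.single δ 1)

theorem cm_single (γ : Gm) :
    cm Gm (AddMonoidAlgebra.single γ 1) = toColex (Finsupp.single γ 1) := rfl

theorem lt_mon_iff (x : TT) (γ : Gm) :
    cm Gm x < cm Gm (AddMonoidAlgebra.single γ 1) ↔ ∀ η, x.coeff η ≠ 0 → η < γ := by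
  rw [cm_single, lt_single_iff]
  exact Iff.rfl

theorem mul_lt_mon {x y : TT} {δ : W1} (hx : cm Gm x < cm Gm (AddMonoidAlgebra.single (ex δ) 1))
    (hy : cm Gm y < cm Gm (AddMonoidAlgebra.single (ex δ) 1)) :
    cm Gm (x * y) < cm Gm (AddMonoidAlgebra.single (ex δ) 1) := by
  classical
  rw [lt_mon_iff] at *
  intro η hη
  have h1 : η ∈ (x * y).coeff.support := Finsupp.mem_support_iff.2 hη
  have h2 := AddMonoidAlgebra.support_coeff_mul_subset x y h1
  obtain ⟨a, ha, b, hb, rfl⟩ := Finset.mem_add.1 h2
  exact add_lt_single (hx a (Finsupp.mem_support_iff.1 ha)) (hy b (Finsupp.mem_support_iff.1 hb))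

theorem add_lt_mon {x y : TT} {γ : Gm} (hx : cm Gm x < cm Gm (AddMonoidAlgebra.single γ 1))
    (hy : cm Gm y < cm Gm (AddMonoidAlgebra.single γ 1)) :
    cm Gm (x + y) < cm Gm (AddMonoidAlgebra.single γ 1) :=
  add_lt_single hx hy

theorem one_lt_mon (δ : W1) : cm Gm 1 < cm Gm (AddMonoidAlgebra.single (ex δ) 1) := by
  rw [lt_mon_iff]
  intro η hη
  have h1 : η = 0 := by
    by_contra h
    apply hη
    rw [AddMonoidAlgebra.one_def, AddMonoidAlgebra.coeff_single, Finsupp.single_eq_of_ne h]
  subst h1
  refine (lt_single_iff (0 : Gm) δ).2 ?_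
  intro b hb
  exact absurd rfl hb

/-- ORD -/
theorem ord : OrdStmt := by
  classical
  obtain ⟨φ, hφ⟩ := exists_emb (T := Colex (Gm →₀ ℕ)) (ic_colex (ic_colex ic_W1))
  have hOm : ∀ a b : TT, cm Gm a < cm Gm b →
      cm Gm (AddMonoidAlgebra.single (ex (φ (cm Gm a))) 1) <
        cm Gm (AddMonoidAlgebra.single (ex (φ (cm Gm b))) 1) := by
    intro a b hab
    rw [cm_single, cm_single]
    exact Finsupp.Colex.single_strictMono (Finsupp.Colex.single_strictMono (hφ hab))
  let lin : LinearOrder TT := linT Gm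
  have hwf : WellFounded ((· < ·) : TT → TT → Prop) :=
    InvImage.wf (cm Gm) (inferInstance : WellFoundedLT (Colex (Gm →₀ ℕ))).wf
  have : WellFoundedLT TT := ⟨hwf⟩
  have hsm : StrictMono (fun c : TT =>
      (AddMonoidAlgebra.single (ex (φ (cm Gm c))) 1 : TT)) := fun a b hab => hOm a b hab
  exact ⟨{
    T := TT
    csr := inferInstance
    lin := lin
    ord := ordT Gm
    wf := hwf
    nonneg := fun a => by
      change cm Gm 0 ≤ cm Gm a
      exact bot_le
    Om := fun c => AddMonoidAlgebra.single (ex (φ (cm Gm c))) 1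
    Om_strict := hsm
    le_Om := fun a => hsm.le_apply
    one_lt_Om := fun c => one_lt_mon (φ (cm Gm c))
    Om_add := fun a b c ha hb => add_lt_mon (γ := ex (φ (cm Gm c))) ha hb
    Om_mul := fun a b c ha hb => mul_lt_mon (δ := φ (cm Gm c)) ha hb }⟩

end Pool.Agent.HF.H94
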